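import Pool.Agent.Helper36.RN.GoalsH

/-!
Project RFn, packet INS: the geometric system is a mixed system with polynomial coefficients.
-/

namespace Pool.Agent.Helper42.RN

open Set Filter Topology Pool.Agent.Helper47.RFn Pool.Agent.Helper36.RN

namespace INS

/-- polynomial in the variables `z` -/
def Pl {n : ℕ} {Ω σ : Type} (z : Ω → σ → XS n) (g : Ω → XS n) : Prop :=
  ∃ p : MvPolynomial σ ℝ, ∀ ω, g ω = MvPolynomial.aeval (z ω) p

section closure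

variable {n : ℕ} {Ω σ : Type} {z : Ω → σ → XS n}

lemma Pl.var (s : σ) : Pl z (fun ω => z ω s) :=
  ⟨MvPolynomial.X s, fun ω => by rw [MvPolynomial.aeval_X]⟩

lemma Pl.add {f g : Ω → XS n} (hf : Pl z f) (hg : Pl z g) : Pl z (fun ω => f ω + g ω) := by
  obtain ⟨p, hp⟩ := hf
  obtain ⟨q, hq⟩ := hg
  exact ⟨p + q, fun ω => by simp only [map_add, hp, hq]⟩

lemma Pl.sub {f g : Ω → XS n} (hf : Pl z f) (hg : Pl z g) : Pl z (fun ω => f ω - g ω) := by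
  obtain ⟨p, hp⟩ := hf
  obtain ⟨q, hq⟩ := hg
  exact ⟨p - q, fun ω => by simp only [map_sub, hp, hq]⟩

lemma Pl.neg {f : Ω → XS n} (hf : Pl z f) : Pl z (fun ω => - f ω) := by
  obtain ⟨p, hp⟩ := hf
  exact ⟨-p, fun ω => by simp only [map_neg, hp]⟩

lemma Pl.mul {f g : Ω → XS n} (hf : Pl z f) (hg : Pl z g) : Pl z (fun ω => f ω * g ω) := by
  obtain ⟨p, hp⟩ := hf
  obtain ⟨q, hq⟩ := hg
  exact ⟨p * q, fun ω => by simp only [map_mul, hp, hq]⟩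

lemma Pl.zero : Pl z (fun _ => 0) := ⟨0, fun ω => by rw [map_zero]⟩

lemma Pl.sum {ι : Type} (s : Finset ι) (f : ι → Ω → XS n) (h : ∀ i, Pl z (f i)) :
    Pl z (fun ω => ∑ i ∈ s, f i ω) := by
  choose p hp using h
  exact ⟨∑ i ∈ s, p i, fun ω => by
    rw [map_sum]
    exact Finset.sum_congr rfl fun i _ => hp i ω⟩

end closure

variable {n : ℕ}

/-- parameters -/
abbrev Pa (n : ℕ) : Type := (UI n → XS n) × (VI n → XS n)

noncomputable def z0 (n : ℕ) : Pa n → UI n ⊕ VI n → XS n := fun ω => Sum.elim ω.1 ω.2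

noncomputable def z1 (n : ℕ) : Pa n → (UI n ⊕ VI n) ⊕ (KK n × VI n) → XS n := fun ω => zj ω.1 ω.2

noncomputable def z2 (n : ℕ) : Pa n → ((UI n ⊕ VI n) ⊕ (KK n × VI n)) ⊕ (KK n × UI n) → XS n :=
  fun ω => zj' ω.1 ω.2

lemma l01 {g : Pa n → XS n} (h : Pl (z0 n) g) : Pl (z1 n) g := by
  obtain ⟨p, hp⟩ := h
  refine ⟨MvPolynomial.rename Sum.inl p, fun ω => ?_⟩
  rw [hp, MvPolynomial.aeval_rename]
  rfl

lemma l12 {g : Pa n → XS n} (h : Pl (z1 n) g) : Pl (z2 n) g := by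
  obtain ⟨p, hp⟩ := h
  refine ⟨MvPolynomial.rename Sum.inl p, fun ω => ?_⟩
  rw [hp, MvPolynomial.aeval_rename]
  rfl

lemma l02 {g : Pa n → XS n} (h : Pl (z0 n) g) : Pl (z2 n) g := l12 (l01 h)

/-- derivatives of polynomials in `u`, `v` -/
lemma dL {g : Pa n → XS n} (h : Pl (z0 n) g) (p : KK n) : Pl (z2 n) (fun ω => Ld p (g ω)) := by
  obtain ⟨P, hP⟩ := h
  have key : ∀ P : MvPolynomial (UI n ⊕ VI n) ℝ,
      Pl (z2 n) (fun ω => Ld p (MvPolynomial.aeval (z0 n ω) P)) := by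
    intro P
    induction P using MvPolynomial.induction_on with
    | C a =>
      refine ⟨0, fun ω => ?_⟩
      show Ld p (MvPolynomial.aeval (z0 n ω) (MvPolynomial.C a)) = _
      rw [MvPolynomial.aeval_C, Derivation.map_algebraMap, map_zero]
    | add P Q hP hQ =>
      obtain ⟨P', hP'⟩ := hP
      obtain ⟨Q', hQ'⟩ := hQ
      refine ⟨P' + Q', fun ω => ?_⟩
      simp only [map_add, hP', hQ']
    | mul_X P s hP =>
      have h1 : Pl (z2 n) (fun ω => MvPolynomial.aeval (z0 n ω) P) := l02 ⟨P, fun _ => rfl⟩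
      have h2 : Pl (z2 n) (fun ω => z0 n ω s) := l02 (Pl.var (z := z0 n) s)
      have h3 : Pl (z2 n) (fun ω => Ld p (z0 n ω s)) := by
        rcases s with s | s
        · exact Pl.var (z := z2 n) (Sum.inr (p, s))
        · exact Pl.var (z := z2 n) (Sum.inl (Sum.inr (p, s)))
      obtain ⟨R, hR⟩ := (h1.mul h3).add (h2.mul hP)
      refine ⟨R, fun ω => ?_⟩
      rw [← hR]
      show Ld p (MvPolynomial.aeval (z0 n ω) (P * MvPolynomial.X s)) = _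
      rw [map_mul, MvPolynomial.aeval_X, Derivation.leibniz, smul_eq_mul, smul_eq_mul]
  obtain ⟨R, hR⟩ := key P
  exact ⟨R, fun ω => by
    show Ld p (g ω) = _
    rw [hP]
    exact hR ω⟩

lemma ev_apply (ν : Ix n → XS n) (i : Ix n) (f : XS n) : ev ν i f = ∑ j, ν j * Ld (j, i) f := by
  rw [ev, ← Derivation.coeFnAddMonoidHom_apply, map_sum, Finset.sum_apply]
  rfl

lemma A0 (a i : Ix n) : Pl (z0 n) (fun ω => uA ω.1 a i) := Pl.var (z := z0 n) (Sum.inl (Sum.inl (a, i)))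

lemma t0 (i a : Ix n) : Pl (z0 n) (fun ω => uth ω.1 i a) :=
  Pl.var (z := z0 n) (Sum.inl (Sum.inr (Sum.inl (i, a))))

lemma O0 (a b : Ix n) : Pl (z0 n) (fun ω => uO ω.1 a b) :=
  Pl.var (z := z0 n) (Sum.inl (Sum.inr (Sum.inr (Sum.inl (a, b)))))

lemma n0 (i : Ix n) : Pl (z0 n) (fun ω => un ω.1 i) :=
  Pl.var (z := z0 n) (Sum.inl (Sum.inr (Sum.inr (Sum.inr i))))

lemma w0 (i c d : Ix n) : Pl (z0 n) (fun ω => vw ω.2 i c d) := by
  by_cases h : c < d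
  · have : (fun ω : Pa n => vw ω.2 i c d) = fun ω => z0 n ω (Sum.inr (i, ⟨(c, d), h⟩)) := by
      funext ω
      unfold vw
      rw [dif_pos h]
      rfl
    rw [this]
    exact Pl.var _
  · by_cases h' : d < c
    · have : (fun ω : Pa n => vw ω.2 i c d) = fun ω => - z0 n ω (Sum.inr (i, ⟨(d, c), h'⟩)) := by
        funext ω
        unfold vw
        rw [dif_neg h, dif_pos h']
        rfl
      rw [this]
      exact Pl.neg (Pl.var _)
    · have : (fun ω : Pa n => vw ω.2 i c d) = fun ω => 0 := by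
        funext ω
        unfold vw
        rw [dif_neg h, dif_neg h']
      rw [this]
      exact Pl.zero

lemma Lw1 (p : KK n) (i c d : Ix n) : Pl (z1 n) (fun ω => Ld p (vw ω.2 i c d)) := by
  by_cases h : c < d
  · have : (fun ω : Pa n => Ld p (vw ω.2 i c d)) =
        fun ω => z1 n ω (Sum.inr (p, (i, ⟨(c, d), h⟩))) := by
      funext ω
      unfold vw
      rw [dif_pos h]
      rfl
    rw [this]
    exact Pl.var _
  · by_cases h' : d < c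
    · have : (fun ω : Pa n => Ld p (vw ω.2 i c d)) =
          fun ω => - z1 n ω (Sum.inr (p, (i, ⟨(d, c), h'⟩))) := by
        funext ω
        unfold vw
        rw [dif_neg h, dif_pos h', map_neg]
        rfl
      rw [this]
      exact Pl.neg (Pl.var _)
    · have : (fun ω : Pa n => Ld p (vw ω.2 i c d)) = fun ω => 0 := by
        funext ω
        unfold vw
        rw [dif_neg h, dif_neg h', map_zero]
      rw [this]
      exact Pl.zero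

lemma ew1 (k i c d : Ix n) : Pl (z1 n) (fun ω => ev (un ω.1) k (vw ω.2 i c d)) := by
  simp only [ev_apply]
  exact Pl.sum _ _ fun j => Pl.mul (l01 (n0 j)) (Lw1 _ _ _ _)

lemma e2 {g : Pa n → XS n} (h : Pl (z0 n) g) (k : Ix n) :
    Pl (z2 n) (fun ω => ev (un ω.1) k (g ω)) := by
  simp only [ev_apply]
  exact Pl.sum _ _ fun j => Pl.mul (l02 (n0 j)) (dL h _)

lemma al0 (k l : Ix n) : Pl (z0 n) (fun ω => TC.al (uA ω.1) k l) := by
  unfold TC.al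
  exact Pl.sum _ _ fun a => Pl.mul (A0 _ _) (A0 _ _)

lemma F1 (i j c d : Ix n) :
    Pl (z1 n) (fun ω => TC.F (ev (un ω.1)) (un ω.1) (vw ω.2) i j c d) := by
  unfold TC.F
  refine Pl.sub (Pl.add (Pl.sub (ew1 _ _ _ _) (ew1 _ _ _ _)) ?_) ?_
  · exact Pl.sum _ _ fun f => Pl.sub (Pl.mul (l01 (w0 _ _ _)) (l01 (w0 _ _ _)))
      (Pl.mul (l01 (w0 _ _ _)) (l01 (w0 _ _ _)))
  · exact Pl.sub (Pl.mul (l01 (n0 _)) (l01 (w0 _ _ _))) (Pl.mul (l01 (n0 _)) (l01 (w0 _ _ _)))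

lemma K1 (a b c d : Ix n) :
    Pl (z1 n) (fun ω => TC.K (ev (un ω.1)) (un ω.1) (uA ω.1) (vw ω.2) a b c d) := by
  unfold TC.K
  exact Pl.sum _ _ fun i => Pl.sum _ _ fun j =>
    Pl.mul (Pl.mul (l01 (A0 _ _)) (l01 (A0 _ _))) (F1 _ _ _ _)

lemma ze1 (c d : Ix n) :
    Pl (z1 n) (fun ω => TC.ze (ev (un ω.1)) (uA ω.1) (vw ω.2) c d) := by
  unfold TC.ze
  exact Pl.sum _ _ fun k => Pl.sum _ _ fun l => Pl.mul (l01 (al0 _ _)) (ew1 _ _ _ _)

lemma Mm1 (a b : Ix n) :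
    Pl (z1 n) (fun ω => TC.Mm (ev (un ω.1)) (un ω.1) (uA ω.1) (vw ω.2) a b) := by
  unfold TC.Mm TC.Sr
  exact Pl.add (Pl.sum _ _ fun b => K1 _ _ _ _) (ze1 _ _)

lemma Gq0 (k i c d : Ix n) : Pl (z0 n) (fun ω => TC.Gq (un ω.1) (vw ω.2) k i c d) := by
  unfold TC.Gq
  refine Pl.sub (Pl.sum _ _ fun f => Pl.sub (Pl.mul (w0 _ _ _) (w0 _ _ _))
    (Pl.mul (w0 _ _ _) (w0 _ _ _))) ?_
  exact Pl.sub (Pl.mul (n0 _) (w0 _ _ _)) (Pl.mul (n0 _) (w0 _ _ _))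

lemma lw2 (i c d : Ix n) :
    Pl (z2 n) (fun ω => TC.lw (ev (un ω.1)) (un ω.1) (uA ω.1) (uth ω.1) (vw ω.2) i c d) := by
  unfold TC.lw
  refine Pl.sub (Pl.add (Pl.sub (Pl.add (Pl.sub (Pl.add (Pl.add (Pl.add ?_ ?_) ?_) ?_) ?_) ?_) ?_) ?_) ?_
  · exact Pl.sum _ _ fun p => Pl.sum _ _ fun k => Pl.mul (l02 (al0 _ _))
      (Pl.sub (Pl.mul (l02 (n0 _)) (l12 (ew1 _ _ _ _))) (Pl.mul (l02 (n0 _)) (l12 (ew1 _ _ _ _))))
  · exact Pl.sum _ _ fun p => Pl.sum _ _ fun k => Pl.mul (l02 (al0 _ _)) (e2 (Gq0 _ _ _ _) _)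
  · exact Pl.sum _ _ fun p => Pl.sum _ _ fun k => Pl.mul (l02 (al0 _ _)) (Pl.sum _ _ fun f =>
      Pl.sub (Pl.mul (l12 (F1 _ _ _ _)) (l02 (w0 _ _ _))) (Pl.mul (l02 (w0 _ _ _)) (l12 (F1 _ _ _ _))))
  · exact Pl.sum _ _ fun a => Pl.sum _ _ fun p => Pl.sum _ _ fun k =>
      Pl.mul (Pl.mul (l02 (A0 _ _)) (e2 (A0 _ _) _)) (l12 (F1 _ _ _ _))
  · exact Pl.sum _ _ fun a => Pl.sum _ _ fun f => Pl.sum _ _ fun p => Pl.sum _ _ fun k =>
      Pl.mul (Pl.mul (Pl.mul (l02 (A0 _ _)) (l02 (w0 _ _ _))) (l02 (A0 _ _))) (l12 (F1 _ _ _ _))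
  · exact Pl.sum _ _ fun p => Pl.sum _ _ fun k => Pl.sum _ _ fun a => Pl.sum _ _ fun l =>
      Pl.mul (Pl.mul (Pl.mul (l02 (al0 _ _)) (l02 (t0 _ _))) (e2 (A0 _ _) _)) (l12 (F1 _ _ _ _))
  · exact Pl.sum _ _ fun p => Pl.sum _ _ fun k => Pl.sum _ _ fun a => Pl.sum _ _ fun f =>
      Pl.sum _ _ fun l =>
      Pl.mul (Pl.mul (Pl.mul (Pl.mul (l02 (al0 _ _)) (l02 (t0 _ _))) (l02 (w0 _ _ _)))
        (l02 (A0 _ _))) (l12 (F1 _ _ _ _))
  · exact Pl.sum _ _ fun k => Pl.sum _ _ fun l => Pl.mul (e2 (al0 _ _) _) (l12 (ew1 _ _ _ _))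
  · exact Pl.sum _ _ fun f => Pl.add (Pl.mul (l02 (w0 _ _ _)) (l12 (ze1 _ _)))
      (Pl.mul (l02 (w0 _ _ _)) (l12 (ze1 _ _)))

/-- right side for `u` -/
noncomputable def Gf (ω : Pa n) : UI n → XS n :=
  Sum.elim (fun p => TC.rA (ev (un ω.1)) (un ω.1) (uA ω.1) (vw ω.2) p.1 p.2)
    (Sum.elim (fun p => TC.rt (ev (un ω.1)) (un ω.1) (uA ω.1) (uth ω.1) (vw ω.2) p.1 p.2)
      (Sum.elim (fun p => TC.rO (ev (un ω.1)) (uA ω.1) (vw ω.2) (uO ω.1) p.1 p.2) fun _ => 0))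

lemma Gf1 (s : UI n) : Pl (z1 n) (fun ω => Gf ω s) := by
  rcases s with ⟨a, i⟩ | ⟨i, a⟩ | ⟨a, b⟩ | i
  · change Pl (z1 n) (fun ω => TC.rA (ev (un ω.1)) (un ω.1) (uA ω.1) (vw ω.2) a i)
    unfold TC.rA
    exact Pl.sum _ _ fun b => Pl.mul (Mm1 _ _) (l01 (A0 _ _))
  · change Pl (z1 n) (fun ω => TC.rt (ev (un ω.1)) (un ω.1) (uA ω.1) (uth ω.1) (vw ω.2) i a)
    unfold TC.rt
    exact Pl.neg (Pl.sum _ _ fun b => Pl.mul (l01 (t0 _ _)) (Mm1 _ _))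
  · change Pl (z1 n) (fun ω => TC.rO (ev (un ω.1)) (uA ω.1) (vw ω.2) (uO ω.1) a b)
    unfold TC.rO
    exact Pl.neg (Pl.sum _ _ fun c => Pl.mul (l01 (O0 _ _)) (ze1 _ _))
  · exact Pl.zero

/-- the lower order terms -/
noncomputable def Wf (ω : Pa n) (j : VI n) : XS n :=
  TC.lw (ev (un ω.1)) (un ω.1) (uA ω.1) (uth ω.1) (vw ω.2) j.1 j.2.1.1 j.2.1.2 -
    ∑ p : KK n, ∑ q : KK n, Ld p (un ω.1 p.1 * TC.al (uA ω.1) p.2 q.2) *
      (un ω.1 q.1 * Ld q (vw ω.2 j.1 j.2.1.1 j.2.1.2))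

lemma Wf2 (j : VI n) : Pl (z2 n) (fun ω => Wf ω j) := by
  unfold Wf
  refine Pl.sub (lw2 _ _ _) (Pl.sum _ _ fun p => Pl.sum _ _ fun q => Pl.mul ?_ ?_)
  · exact dL (Pl.mul (n0 _) (al0 _ _)) p
  · exact Pl.mul (l02 (n0 _)) (l12 (Lw1 _ _ _ _))

lemma vw_lt (v : VI n → XS n) (j : VI n) : vw v j.1 j.2.1.1 j.2.1.2 = v j := by
  unfold vw
  rw [dif_pos j.2.2]

lemma main_id (ν : Ix n → XS n) (al : Ix n → Ix n → XS n) (f : XS n) :
    ∑ p, ∑ k, al p k * ev ν p (ev ν k f) =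
      ∑ p : KK n, Ld p (∑ q : KK n, (ν p.1 * al p.2 q.2 * ν q.1) * Ld q f) -
      ∑ p : KK n, ∑ q : KK n, Ld p (ν p.1 * al p.2 q.2) * (ν q.1 * Ld q f) := by
  rw [← Finset.sum_sub_distrib]
  have h1 : ∀ p : KK n, Ld p (∑ q : KK n, (ν p.1 * al p.2 q.2 * ν q.1) * Ld q f) -
      ∑ q : KK n, Ld p (ν p.1 * al p.2 q.2) * (ν q.1 * Ld q f) =
      ∑ q : KK n, (ν p.1 * al p.2 q.2) * Ld p (ν q.1 * Ld q f) := by
    intro p
    rw [map_sum, ← Finset.sum_sub_distrib]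
    refine Finset.sum_congr rfl fun q _ => ?_
    rw [mul_assoc, Derivation.leibniz (Ld p) (ν p.1 * al p.2 q.2), smul_eq_mul, smul_eq_mul]
    ring
  rw [Finset.sum_congr rfl fun p _ => h1 p]
  have h2 : ∀ p k, al p k * ev ν p (ev ν k f) =
      ∑ j, ∑ i, (ν j * al p k) * Ld (j, p) (ν i * Ld (i, k) f) := by
    intro p k
    rw [ev_apply ν p, Finset.mul_sum]
    refine Finset.sum_congr rfl fun j _ => ?_
    rw [ev_apply ν k, map_sum, Finset.mul_sum, Finset.mul_sum]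
    refine Finset.sum_congr rfl fun i _ => ?_
    ring
  simp only [h2, Fintype.sum_prod_type]
  rw [Finset.sum_comm (f := fun j p => ∑ i, ∑ k, ν j * al p k * (Ld (j, p)) (ν i * (Ld (i, k)) f))]
  refine Finset.sum_congr rfl fun p _ => ?_
  rw [Finset.sum_comm]
  refine Finset.sum_congr rfl fun j _ => ?_
  rw [Finset.sum_comm]

end INS

open INS

theorem ins : G_INS := by
  intro n
  choose G hG using Gf1 (n := n)
  choose W hW using Wf2 (n := n)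
  let α : KK n → KK n → MvPolynomial (UI n) ℝ := fun p q =>
    MvPolynomial.X (Sum.inr (Sum.inr (Sum.inr p.1))) *
      (∑ a : Ix n, MvPolynomial.X (Sum.inl (a, p.2)) * MvPolynomial.X (Sum.inl (a, q.2))) *
        MvPolynomial.X (Sum.inr (Sum.inr (Sum.inr q.1)))
  let D : QLD n (UI n) (VI n) :=
    { G := G
      α := α
      β := fun _ _ => 0
      W := W }
  have hα : ∀ (u : UI n → XS n) (p q : KK n), MvPolynomial.aeval u (D.α p q) =
    un u p.1 * TC.al (uA u) p.2 q.2 * un u q.1 := by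
    intro u p q
    simp only [D, α, map_sum, map_mul, MvPolynomial.aeval_X]
    rfl
  refine ⟨D, ?_, ?_, ?_, ?_, ?_, hα⟩
  · intro u v a i
    exact (hG (Sum.inl (a, i)) (u, v)).symm
  · intro u v i a
    exact (hG (Sum.inr (Sum.inl (i, a))) (u, v)).symm
  · intro u v a b
    exact (hG (Sum.inr (Sum.inr (Sum.inl (a, b)))) (u, v)).symm
  · intro u v i
    exact (hG (Sum.inr (Sum.inr (Sum.inr i))) (u, v)).symm
  · intro u v j
    unfold QLD.FJ TC.sw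
    have h2 : (MvPolynomial.aeval (zj' u v) (D.W j) : XS n) = Wf (u, v) j :=
      (hW j (u, v)).symm
    have h3 : ∀ p, (MvPolynomial.aeval (Sum.elim u v) (D.β p j) : XS n) = 0 := by
      intro p
      simp only [D, map_zero]
    rw [h2, main_id]
    simp only [h3, add_zero, hα]
    unfold Wf
    simp only [vw_lt]
    ring

end Pool.Agent.Helper42.RN
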